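import Pool.Agent.MP_75c3b6_nt.SH.D

/-! Solutions of small height of `(1 + a) ^ p ≡ 1 + a ^ p` are rare, already modulo `p ^ 2`. -/

theorem Pool.Agent.Results.MP_75c3b6_nt.SmallHeight.result : ∃ C : ℝ,
    ∀ (p Y : ℕ) (u : ℝ), p.Prime → 2 ≤ u → Real.log p ^ u ≤ Y → 2 * Y < p →
      ({v : ℕ × ℕ | 1 ≤ v.1 ∧ v.1 ≤ Y ∧ 1 ≤ v.2 ∧ v.2 ≤ Y ∧ ∃ a : ℤ, a * v.2 ≡ v.1 [ZMOD p] ∧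
        (1 + a) ^ p ≡ 1 + a ^ p [ZMOD (p : ℤ) ^ 2]}.ncard : ℝ) ≤
        C * (Y : ℝ) ^ 2 * (Real.log u / u) ^ 3 :=
  Pool.Agent.MP_75c3b6_nt.SH.main3
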